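import Pool.Agent.H72.ET.Targets
import Pool.Agent.H72.SBP.EXS2
import Pool.Agent.H72.PER.HRL
import Pool.Agent.H62.BF.ESF
import Pool.Agent.H29.BF.QPF

/-!
# Board et_modules, module ET1: exceptional logarithms relative to one complex number
-/

set_option autoImplicit false

open Finset Filter Module

namespace Pool.Agent.H33.ET

open Pool.Agent.H72.BF Pool.Agent.H72.ET
open Pool.Agent.H72.SBP (HRP hrp_trans deg_bound)
open Pool.Agent.H72.PER (hrp_iff)
open Pool.Agent.H79.BF (relD_add)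
open Pool.Agent.H62.BF (ultra_pigeon colour_core)

/-! ### The algebraic theorem -/

theorem exs1 (h1 : T_CVR) (h2 : T_SPT) (hSPC : T_SPC) : ∀ d M : ℕ, ∃ s : ℕ, 1 ≤ s ∧
    ∀ (K F : Type) [Field K] [CharZero K] [IsAlgClosed K] [Field F] [Algebra K F] (t : F)
    (y : Fin M → F), Transcendental K t →
    LinearIndependent K (Fin.cons 1 y : Fin (M + 1) → F) → HRP K F y →
    ∃ W : Fin s → Submodule K (Fin M → K),
      (∀ i, Module.finrank K (W i) ≤ min d (Nat.sqrt (4 * d + 1) - 1)) ∧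
      ∀ v : Fin M → K, RelD K t d (∑ j, algebraMap K F (v j) * y j) → ∃ i, v ∈ W i := by
  classical
  intro d M
  obtain ⟨s, hs⟩ := h1 d M
  refine ⟨s + 1, by omega, ?_⟩
  intro K F _ _ _ _ _ t y ht hli hHRP
  have hli' := Fintype.linearIndependent_iff.1 hli
  obtain ⟨Ws, hcard, hin, hcov⟩ := hs K F t ht y
  have hsum : ∀ v : Fin M → K, ∑ j, algebraMap K F (v j) * y j
      = Fintype.linearCombination K y v := by
    intro v
    rw [Fintype.linearCombination_apply]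
    exact Finset.sum_congr rfl fun j _ => (Algebra.smul_def _ _).symm
  have hdim : ∀ W ∈ Ws, finrank K W ≤ min d (Nat.sqrt (4 * d + 1) - 1) := by
    intro W hW
    let Ψ : (K × K × W) →ₗ[K] F :=
      LinearMap.coprod (LinearMap.toSpanSingleton K F 1)
        (LinearMap.coprod (LinearMap.toSpanSingleton K F t)
          ((Fintype.linearCombination K y).comp W.subtype))
    have hΨ : ∀ a b (v : W), Ψ (a, b, v) = a • (1 : F) + (b • t +
        Fintype.linearCombination K y (v : Fin M → K)) := by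
      intro a b v
      rfl
    have hfd : FiniteDimensional K (LinearMap.range Ψ) := inferInstance
    have hrelΨ : ∀ z ∈ LinearMap.range Ψ, RelD K t d z := by
      rintro z ⟨⟨a, b, v⟩, rfl⟩
      rw [hΨ]
      refine relD_add a b ?_
      rw [← hsum]
      exact hin W hW v v.2
    have h1S : (1 : F) ∈ LinearMap.range Ψ := ⟨(1, 0, 0), by rw [hΨ]; simp⟩
    have htS : t ∈ LinearMap.range Ψ := ⟨(0, 1, 0), by rw [hΨ]; simp⟩
    -- the bound `d`
    let Φ : (K × W) →ₗ[K] F :=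
      LinearMap.coprod (LinearMap.toSpanSingleton K F 1)
        ((Fintype.linearCombination K y).comp W.subtype)
    have hΦ : ∀ a (v : W), Φ (a, v) = a • (1 : F) +
        Fintype.linearCombination K y (v : Fin M → K) := by
      intro a v
      rfl
    have hinj : Function.Injective Φ := by
      rw [injective_iff_map_eq_zero]
      rintro ⟨a, v⟩ h0
      rw [hΦ] at h0
      have hg := hli' (Fin.cons a (v : Fin M → K)) (by
        rw [Fin.sum_univ_succ]
        simp only [Fin.cons_zero, Fin.cons_succ]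
        rw [Fintype.linearCombination_apply] at h0
        exact h0)
      have ha : a = 0 := hg 0
      have hv : v = 0 := by
        apply Subtype.ext
        funext j
        exact hg j.succ
      rw [ha, hv]
      rfl
    have hle0 : LinearMap.range Φ ≤ LinearMap.range Ψ := by
      rintro z ⟨⟨a, v⟩, rfl⟩
      refine ⟨(a, 0, v), ?_⟩
      rw [hΨ, hΦ, zero_smul, zero_add]
    have hle := h2 K F t ht d (LinearMap.range Ψ) hfd hrelΨ
    have hle1 := Submodule.finrank_mono hle0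
    rw [LinearMap.finrank_range_of_inj hinj] at hle1
    simp only [Module.finrank_prod, Module.finrank_self] at hle1
    -- the square root bound
    obtain ⟨p, hp⟩ : ∃ p, finrank K W = p := ⟨_, rfl⟩
    let b : Basis (Fin p) K W := Module.finBasisOfFinrankEq K _ hp
    obtain ⟨y', hy'⟩ : ∃ y' : Fin p → F,
      y' = fun k => Fintype.linearCombination K y (b k : Fin M → K) := ⟨_, rfl⟩
    obtain ⟨a, ha⟩ : ∃ a : Fin (p + 1) → Fin (M + 1) → K,
      a = Fin.cons (Fin.cons 1 0) (fun k => Fin.cons 0 (b k : Fin M → K)) := ⟨_, rfl⟩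
    have hy : ∀ i, (Fin.cons 1 y' : Fin (p + 1) → F) i =
        ∑ k, (Fin.cons 1 y : Fin (M + 1) → F) k * algebraMap K F (a i k) := by
      intro i
      refine Fin.cases ?_ (fun i => ?_) i
      · rw [Fin.sum_univ_succ, ha]
        simp
      · rw [Fin.sum_univ_succ, ha]
        simp only [Fin.cons_succ, Fin.cons_zero, map_zero, mul_zero, zero_add, hy']
        rw [← hsum]
        exact Finset.sum_congr rfl fun k _ => mul_comm _ _
    have hind : LinearIndependent K a := by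
      rw [Fintype.linearIndependent_iff]
      intro g hg
      have hg0 : g 0 = 0 := by
        have h3 := congrFun hg 0
        rw [Finset.sum_apply, Fin.sum_univ_succ, ha] at h3
        simpa using h3
      have hb := Fintype.linearIndependent_iff.1 b.linearIndependent (fun k => g k.succ) (by
        apply Subtype.ext
        funext j
        have h3 := congrFun hg j.succ
        rw [Finset.sum_apply, Fin.sum_univ_succ, ha] at h3
        simp only [Pi.smul_apply, Fin.cons_zero, Fin.cons_succ, Pi.zero_apply, smul_eq_mul,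
          mul_zero, zero_add] at h3
        rw [AddSubmonoidClass.coe_finsetSum, Finset.sum_apply]
        simp only [SetLike.val_smul, Pi.smul_apply, smul_eq_mul, ZeroMemClass.coe_zero,
          Pi.zero_apply]
        exact h3)
      intro i
      exact Fin.cases hg0 hb i
    have hyHRP : HRP K F y' := hrp_trans y y' hHRP a hy hind
    have hfin := deg_bound hSPC t ht d (LinearMap.range Ψ) hfd h1S htS hrelΨ y' hyHRP
      (fun k => ⟨(0, 0, b k), by rw [hΨ, hy']; simp⟩)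
    have hsq : p + 1 ≤ Nat.sqrt (4 * d + 1) := by
      rw [Nat.le_sqrt]
      rcases Nat.even_or_odd' p with ⟨q, hq | hq⟩
      · subst hq
        have h3 : (2 * q + 1) ^ 2 / 4 = q * q + q := by
          have : (2 * q + 1) ^ 2 = 4 * (q * q + q) + 1 := by ring
          omega
        rw [h3] at hfin
        nlinarith
      · subst hq
        have h3 : (2 * q + 1 + 1) ^ 2 / 4 = (q + 1) * (q + 1) := by
          have : (2 * q + 1 + 1) ^ 2 = 4 * ((q + 1) * (q + 1)) := by ring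
          omega
        rw [h3] at hfin
        nlinarith
    omega
  obtain ⟨e⟩ : Nonempty (Ws ↪ Fin (s + 1)) := by
    rw [Function.Embedding.nonempty_iff_card_le]
    simp
    omega
  refine ⟨fun i => if h : ∃ W : Ws, e W = i then (h.choose : Submodule K (Fin M → K)) else ⊥,
    ?_, ?_⟩
  · intro i
    beta_reduce
    by_cases h : ∃ W : Ws, e W = i
    · rw [dif_pos h]
      exact hdim _ h.choose.2
    · rw [dif_neg h]
      simp
  · intro v hv
    obtain ⟨W, hW, hvW⟩ := hcov v hv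
    refine ⟨e ⟨W, hW⟩, ?_⟩
    have h : ∃ W' : Ws, e W' = e ⟨W, hW⟩ := ⟨⟨W, hW⟩, rfl⟩
    beta_reduce
    rw [dif_pos h]
    have := e.injective h.choose_spec
    rw [this]
    exact hvW

/-! ### Polynomials in two variables -/

/-- exponents -/
noncomputable def mk2 (a k : ℕ) : Fin 2 →₀ ℕ := Finsupp.single 0 a + Finsupp.single 1 k

lemma mk2_zero (a k : ℕ) : mk2 a k 0 = a := by simp [mk2]

lemma mk2_one (a k : ℕ) : mk2 a k 1 = k := by simp [mk2]

lemma mk2_eq (m : Fin 2 →₀ ℕ) : mk2 (m 0) (m 1) = m := by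
  ext i
  fin_cases i
  · exact mk2_zero _ _
  · exact mk2_one _ _

lemma deg_two {Q : MvPolynomial (Fin 2) ℤ} {d : ℕ} (hd : Q.totalDegree ≤ d) {m : Fin 2 →₀ ℕ}
    (hm : m ∈ Q.support) : m 0 + m 1 ≤ d := by
  have h1 := MvPolynomial.le_totalDegree hm
  rw [Finsupp.sum_fintype _ _ (fun _ => rfl), Fin.sum_univ_two] at h1
  omega

lemma aeval_two (x y : ℂ) (Q : MvPolynomial (Fin 2) ℤ) {d : ℕ} (hd : Q.totalDegree ≤ d) :
    MvPolynomial.aeval ![x, y] Q = ∑ k ∈ range (d + 1),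
      (∑ a ∈ range (d + 1), ((Q.coeff (mk2 a k) : ℤ) : ℂ) * x ^ a) * y ^ k := by
  classical
  rw [MvPolynomial.aeval_def, MvPolynomial.eval₂_eq']
  have h1 : ∑ m ∈ Q.support, algebraMap ℤ ℂ (Q.coeff m) * ∏ i, (![x, y] : Fin 2 → ℂ) i ^ m i =
      ∑ m ∈ (range (d + 1) ×ˢ range (d + 1)).image (fun p => mk2 p.1 p.2),
        algebraMap ℤ ℂ (Q.coeff m) * ∏ i, (![x, y] : Fin 2 → ℂ) i ^ m i := by
    refine Finset.sum_subset ?_ ?_
    · intro m hm
      have h2 := deg_two hd hm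
      rw [Finset.mem_image]
      refine ⟨(m 0, m 1), ?_, mk2_eq m⟩
      rw [Finset.mem_product, Finset.mem_range, Finset.mem_range]
      exact ⟨by omega, by omega⟩
    · intro m _ hm
      rw [MvPolynomial.notMem_support_iff] at hm
      rw [hm, map_zero, zero_mul]
  rw [h1, Finset.sum_image (by
    rintro ⟨a, k⟩ _ ⟨a', k'⟩ _ h
    have h3 := DFunLike.congr_fun h 0
    have h4 := DFunLike.congr_fun h 1
    simp only [mk2_zero, mk2_one] at h3 h4
    rw [h3, h4]), Finset.sum_product_right]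
  refine Finset.sum_congr rfl fun k _ => ?_
  rw [Finset.sum_mul]
  refine Finset.sum_congr rfl fun a _ => ?_
  rw [Fin.prod_univ_two, mk2_zero, mk2_one]
  simp only [Matrix.cons_val_zero, Matrix.cons_val_one]
  rw [algebraMap_int_eq, Int.coe_castRingHom]
  ring

/-- the coefficient of the `k`-th power of the second variable -/
noncomputable def rk (Q : MvPolynomial (Fin 2) ℤ) (d k : ℕ) : MvPolynomial (Fin 1) ℤ :=
  ∑ a ∈ range (d + 1), MvPolynomial.monomial (Finsupp.single 0 a) (Q.coeff (mk2 a k))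

lemma rk_coeff (Q : MvPolynomial (Fin 2) ℤ) (d k : ℕ) (m : Fin 1 →₀ ℕ) :
    (rk Q d k).coeff m = if m 0 < d + 1 then Q.coeff (mk2 (m 0) k) else 0 := by
  classical
  unfold rk
  rw [MvPolynomial.coeff_sum]
  have h1 : ∀ a, MvPolynomial.coeff m (MvPolynomial.monomial (Finsupp.single (0 : Fin 1) a)
      (Q.coeff (mk2 a k))) = if a = m 0 then Q.coeff (mk2 (m 0) k) else 0 := by
    intro a
    rw [MvPolynomial.coeff_monomial]
    by_cases h : a = m 0
    · have h2 : Finsupp.single (0 : Fin 1) a = m := Finsupp.ext fun i => by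
        rw [Subsingleton.elim i 0, Finsupp.single_eq_same, h]
      rw [if_pos h2, if_pos h, h]
    · have h2 : Finsupp.single (0 : Fin 1) a ≠ m := by
        intro h3
        apply h
        rw [← h3, Finsupp.single_eq_same]
      rw [if_neg h2, if_neg h]
  rw [Finset.sum_congr rfl fun a _ => h1 a, Finset.sum_ite_eq']
  simp only [Finset.mem_range]

lemma rk_deg (Q : MvPolynomial (Fin 2) ℤ) (d k : ℕ) : (rk Q d k).totalDegree ≤ d := by
  unfold rk
  refine MvPolynomial.totalDegree_finsetSum_le fun a ha => ?_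
  refine (MvPolynomial.totalDegree_monomial_le _ _).trans ?_
  rw [Finsupp.sum_single_index rfl]
  rw [Finset.mem_range] at ha
  simp only [id]
  omega

lemma rk_aeval (Q : MvPolynomial (Fin 2) ℤ) (d k : ℕ) (x : Fin 1 → ℂ) :
    MvPolynomial.aeval x (rk Q d k) =
      ∑ a ∈ range (d + 1), ((Q.coeff (mk2 a k) : ℤ) : ℂ) * x 0 ^ a := by
  unfold rk
  rw [map_sum]
  refine Finset.sum_congr rfl fun a _ => ?_
  rw [MvPolynomial.aeval_monomial, Finsupp.prod_single_index (h := fun i k => x i ^ k)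
    (pow_zero _), algebraMap_int_eq, Int.coe_castRingHom]

lemma rk_exists {Q : MvPolynomial (Fin 2) ℤ} {d : ℕ} (hd : Q.totalDegree ≤ d) (h0 : Q ≠ 0) :
    ∃ k : Fin (d + 1), rk Q d k ≠ 0 := by
  obtain ⟨m, hm⟩ := MvPolynomial.ne_zero_iff.1 h0
  have h1 := deg_two hd (MvPolynomial.mem_support_iff.2 hm)
  refine ⟨⟨m 1, by omega⟩, fun h => hm ?_⟩
  have h2 := rk_coeff Q d (m 1) (Finsupp.single 0 (m 0))
  rw [Finsupp.single_eq_same, if_pos (by omega), mk2_eq] at h2
  change rk Q d (m 1) = 0 at h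
  rw [h, MvPolynomial.coeff_zero] at h2
  exact h2.symm

/-! ### The residue field -/

/-- if the residue of `ξ` is algebraic and `ξ` has a measure, a small value of a polynomial makes
the residue of `z` algebraic -/
theorem alg_case {H : ℕ → ℝ} (P : Pkg H) (d : ℕ) (Q : ℕ → MvPolynomial (Fin 2) ℤ)
    (hQ0 : ∀ j, Q j ≠ 0) (hQd : ∀ j, (Q j).totalDegree ≤ d)
    (hQc : ∀ j, ∀ m : Fin 2 →₀ ℕ, |(((Q j).coeff m : ℤ) : ℝ)| ≤ H j) (ξ z : ℕ → ℂ)
    (hξ : ξ ∈ P.O) (hz : z ∈ P.O) (B : ℕ)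
    (hgood : ∀ j k, rk (Q j) d k ≠ 0 →
      1 ≤ H j ^ B * ‖MvPolynomial.aeval (fun _ => ξ j) (rk (Q j) d k)‖)
    (hval : ∀ j, H j ^ ((j : ℝ) + 1) * ‖MvPolynomial.aeval ![ξ j, z j] (Q j)‖ < 1)
    (ht : IsAlgebraic P.kb (P.ev ξ)) : IsAlgebraic P.kb (P.ev z) := by
  classical
  have hBd : ∀ a k, P.Bd (fun j => (Q j).coeff (mk2 a k)) := fun a k =>
    P.bd_of_le 1 (fun j => by rw [pow_one]; exact hQc j _)
  -- `t` in the algebraic closure
  obtain ⟨c, hc⟩ : ∃ c : P.kb, algebraMap P.kb P.F c = P.ev ξ := by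
    have hint : IsIntegral P.kb (P.ev ξ) := ht.isIntegral
    have hdeg : (minpoly P.kb (P.ev ξ)).degree = 1 :=
      IsAlgClosed.degree_eq_one_of_irreducible P.kb (minpoly.irreducible hint)
    exact minpoly.mem_range_of_degree_eq_one P.kb (P.ev ξ) hdeg
  let γ : ℕ → ℕ → P.kb := fun a k =>
    algebraMap P.kk P.kb ⟨P.evZ (fun j => (Q j).coeff (mk2 a k)), P.evZ_mem (hBd a k)⟩
  have hγ : ∀ a k, algebraMap P.kb P.F (γ a k) = P.evZ (fun j => (Q j).coeff (mk2 a k)) :=
    fun a k => rfl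
  obtain ⟨ρ, hρ⟩ : ∃ ρ : ℕ → P.kb, ρ = fun k => ∑ a ∈ range (d + 1), γ a k * c ^ a := ⟨_, rfl⟩
  -- the residues of the coefficients
  have hsm : ∀ k, (fun j => ∑ a ∈ range (d + 1), (((Q j).coeff (mk2 a k) : ℤ) : ℂ) * ξ j ^ a) =
      ∑ a ∈ range (d + 1), (fun j => (((Q j).coeff (mk2 a k) : ℤ) : ℂ)) * ξ ^ a := by
    intro k
    funext j
    rw [Finset.sum_apply]
    rfl
  have hmem1 : ∀ k a, (fun j => (((Q j).coeff (mk2 a k) : ℤ) : ℂ)) * ξ ^ a ∈ P.O := fun k a =>
    P.O.mul_mem (hBd a k) (P.O.pow_mem hξ a)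
  have hmem : ∀ k, (fun j => ∑ a ∈ range (d + 1),
      (((Q j).coeff (mk2 a k) : ℤ) : ℂ) * ξ j ^ a) ∈ P.O := by
    intro k
    rw [hsm]
    exact P.O.sum_mem fun a _ => hmem1 k a
  have hr : ∀ k, algebraMap P.kb P.F (ρ k) = P.ev (fun j => ∑ a ∈ range (d + 1),
      (((Q j).coeff (mk2 a k) : ℤ) : ℂ) * ξ j ^ a) := by
    intro k
    rw [hsm, P.ev_sum _ _ (fun a _ => hmem1 k a), hρ, map_sum]
    refine Finset.sum_congr rfl fun a _ => ?_
    rw [P.ev_mul (hBd a k) (P.O.pow_mem hξ a), P.ev_pow hξ, map_mul, map_pow, hc, hγ]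
    rfl
  -- one of them is not zero
  obtain ⟨k0, hk0⟩ := ultra_pigeon (ι := Fin (d + 1)) (fun k j => rk (Q j) d k ≠ 0)
    (fun j => rk_exists (hQd j) (hQ0 j))
  have hne : ρ k0 ≠ 0 := by
    intro h
    have h1 := hr k0
    rw [h, map_zero] at h1
    have h2 := (P.ev_eq_zero (hmem k0)).1 h1.symm (B + 1)
    obtain ⟨j, hj1, hj2⟩ := (hk0.and h2).exists
    have h3 := hgood j k0 hj1
    rw [rk_aeval] at h3
    have h4 := P.hH j
    rw [pow_succ] at hj2
    nlinarith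
  -- the polynomial
  obtain ⟨p, hp⟩ : ∃ p : Polynomial P.kb,
    p = ∑ k ∈ range (d + 1), Polynomial.C (ρ k) * Polynomial.X ^ k := ⟨_, rfl⟩
  refine ⟨p, ?_, ?_⟩
  · intro h
    have h1 : p.coeff k0 = ρ k0 := by
      rw [hp, Polynomial.finsetSum_coeff]
      simp only [Polynomial.coeff_C_mul_X_pow]
      rw [Finset.sum_ite_eq, if_pos (Finset.mem_range.2 k0.2)]
    rw [h, Polynomial.coeff_zero] at h1
    exact hne h1.symm
  · have h1 : (fun j => MvPolynomial.aeval ![ξ j, z j] (Q j)) = ∑ k ∈ range (d + 1),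
        (fun j => ∑ a ∈ range (d + 1), (((Q j).coeff (mk2 a k) : ℤ) : ℂ) * ξ j ^ a) * z ^ k := by
      funext j
      rw [aeval_two _ _ _ (hQd j), Finset.sum_apply]
      rfl
    have hmem2 : ∀ k, (fun j => ∑ a ∈ range (d + 1),
        (((Q j).coeff (mk2 a k) : ℤ) : ℂ) * ξ j ^ a) * z ^ k ∈ P.O := fun k =>
      P.O.mul_mem (hmem k) (P.O.pow_mem hz k)
    have hmem3 : (fun j => MvPolynomial.aeval ![ξ j, z j] (Q j)) ∈ P.O := by
      rw [h1]
      exact P.O.sum_mem fun k _ => hmem2 k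
    have h2 : Polynomial.aeval (P.ev z) p =
        P.ev (fun j => MvPolynomial.aeval ![ξ j, z j] (Q j)) := by
      rw [h1, P.ev_sum _ _ (fun k _ => hmem2 k), hp, map_sum]
      refine Finset.sum_congr rfl fun k _ => ?_
      rw [P.ev_mul (hmem k) (P.O.pow_mem hz k), P.ev_pow hz, map_mul, map_pow,
        Polynomial.aeval_C, Polynomial.aeval_X, hr]
    rw [h2, P.ev_eq_zero hmem3]
    intro c'
    filter_upwards [Pool.Agent.H29.BF.ev_ge c'] with j hj
    have h3 := P.hH j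
    have h4 : H j ^ c' ≤ H j ^ ((j : ℝ) + 1) := by
      rw [← Real.rpow_natCast]
      refine Real.rpow_le_rpow_of_exponent_le (by linarith) ?_
      have : (c' : ℝ) ≤ j := by exact_mod_cast hj
      linarith
    have h5 : 0 ≤ ‖MvPolynomial.aeval ![ξ j, z j] (Q j)‖ := norm_nonneg _
    have h6 := hval j
    nlinarith [mul_le_mul_of_nonneg_right h4 h5]

/-- exceptional vector -/
def EX (d M : ℕ) (μ : Fin M → ℂ) (C H : ℝ) (ξ : Fin 1 → ℂ) (w : Fin M → ℤ) : Prop :=
  (∀ i, |(w i : ℝ)| ≤ H) ∧ ∃ P : MvPolynomial (Fin 2) ℤ, P ≠ 0 ∧ P.totalDegree ≤ d ∧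
    (∀ m : Fin 2 →₀ ℕ, |((P.coeff m : ℤ) : ℝ)| ≤ H) ∧
    H ^ C * ‖MvPolynomial.aeval (Fin.snoc ξ (∑ j, (w j : ℂ) * μ j) : Fin (1 + 1) → ℂ) P‖ < 1

theorem snoc_two (ξ : Fin 1 → ℂ) (z : ℂ) : (Fin.snoc ξ z : Fin (1 + 1) → ℂ) = ![ξ 0, z] := by
  funext i
  fin_cases i
  · rfl
  · rfl

theorem pf_ET1 (hBF : T_BF) (hPKG : T_PKG) (hBFF : T_BFF) (hEVP : T_EVP) (hMNR : T_MNR)
    (hCVR : T_CVR) (hSPT : T_SPT) (hSPC : T_SPC) (hCRT : T_CRT)
    (hHRL : Pool.Agent.H72.PER.T_HRL) : T_ET1 := by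
  classical
  intro d M
  obtain ⟨s, hs1, hs⟩ := exs1 hCVR hSPT hSPC d M
  refine ⟨s, fun μ hli hμ A => ?_⟩
  obtain ⟨e, he⟩ : ∃ e, e = min d (Nat.sqrt (4 * d + 1) - 1) := ⟨_, rfl⟩
  have hsq : 1 ≤ Nat.sqrt (4 * d + 1) := by
    rw [Nat.le_sqrt]
    omega
  obtain ⟨N, hN⟩ := hCRT s e
  suffices hmain : ∃ C : ℝ, 0 < C ∧ ∀ H : ℝ, 2 ≤ H →
      ∀ ξ : Fin 1 → ℂ, (∀ i, ‖ξ i‖ ≤ H) → GoodN d H A ξ →
      ∃ U : Fin s → Submodule ℚ (Fin M → ℚ), (∀ i, Module.finrank ℚ (U i) ≤ e) ∧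
      ∀ w : Fin M → ℤ, (∀ i, |(w i : ℝ)| ≤ H) → (∀ i, (fun j => (w j : ℚ)) ∉ U i) →
        GoodN d H C (Fin.snoc ξ (∑ j, (w j : ℂ) * μ j) : Fin (1 + 1) → ℂ) by
    obtain ⟨C, hC, h⟩ := hmain
    refine ⟨C, hC, fun H hH ξ hξ hg => ?_⟩
    obtain ⟨U, hU1, hU2⟩ := h H hH ξ hξ hg
    refine ⟨U, fun i => ?_, hU2⟩
    have := hU1 i
    omega
  by_contra hcon
  push Not at hcon
  have h1 : ∀ n : ℕ, ∃ H : ℝ, 2 ≤ H ∧ ∃ ξ : Fin 1 → ℂ, (∀ i, ‖ξ i‖ ≤ H) ∧ GoodN d H A ξ ∧
      ∃ w : Fin N → Fin M → ℤ, (∀ i, EX d M μ ((n : ℝ) + 1) H ξ (w i)) ∧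
      ∀ U : Fin s → Submodule ℚ (Fin M → ℚ), (∀ l, Module.finrank ℚ (U l) ≤ e) →
        ∃ i, ∀ l, (fun k => (w i k : ℚ)) ∉ U l := by
    intro n
    obtain ⟨H, hH2, ξ, hξ, hg, hH⟩ := hcon ((n : ℝ) + 1) (by positivity)
    refine ⟨H, hH2, ξ, hξ, hg, ?_⟩
    have h2 : ¬ ∃ U : Fin s → Submodule ℚ (Fin M → ℚ),
        (∀ i, Module.finrank ℚ (U i) ≤ e) ∧
        ∀ b ∈ {b : Fin M → ℚ | ∃ w : Fin M → ℤ, (b = fun k => (w k : ℚ)) ∧
          EX d M μ ((n : ℝ) + 1) H ξ w}, ∃ l, b ∈ U l := by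
      rintro ⟨U, hU1, hU2⟩
      obtain ⟨w, hw1, hw2, hw3⟩ := hH U hU1
      unfold GoodN at hw3
      push Not at hw3
      obtain ⟨P, hP0, hPd, hPc, hPv⟩ := hw3
      obtain ⟨l, hl⟩ := hU2 _ ⟨w, rfl, hw1, P, hP0, hPd, hPc, hPv⟩
      exact hw2 l hl
    have h3 := mt (hN ℚ M _) h2
    push Not at h3
    obtain ⟨b, hb1, hb2⟩ := h3
    choose w hw1 hw2 using hb1
    refine ⟨w, hw2, fun U hU => ?_⟩
    obtain ⟨i, hi⟩ := hb2 U hU
    refine ⟨i, fun l => ?_⟩
    rw [← hw1 i]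
    exact hi l
  choose H' hH2' ξ' hξ' hg' w' hw' hcov' using h1
  obtain ⟨q, hq⟩ : ∃ q : ℕ → ℕ, q = fun j => (j + 2) * (j + 1) := ⟨_, rfl⟩
  obtain ⟨H, hH⟩ : ∃ H : ℕ → ℝ, H = fun j => max (H' (q j)) ((j : ℝ) + 2) := ⟨_, rfl⟩
  have hH2 : ∀ j, 2 ≤ H j := fun j => by
    rw [hH]
    exact (hH2' (q j)).trans (le_max_left _ _)
  have hHle : ∀ j, H' (q j) ≤ H j := fun j => by
    rw [hH]
    exact le_max_left _ _
  have htH : ∀ j : ℕ, (j : ℝ) + 2 ≤ H j := fun j => by
    rw [hH]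
    exact le_max_right _ _
  have hpow : ∀ j : ℕ, H j ^ ((j : ℝ) + 1) ≤ H' (q j) ^ ((q j : ℝ) + 1) := by
    intro j
    have h2H := hH2' (q j)
    have h5 : H j ≤ H' (q j) ^ ((j : ℝ) + 2) := by
      rw [hH]
      refine max_le ?_ ?_
      · calc H' (q j) = H' (q j) ^ (1 : ℝ) := (Real.rpow_one _).symm
          _ ≤ H' (q j) ^ ((j : ℝ) + 2) :=
            Real.rpow_le_rpow_of_exponent_le (by linarith) (by
              have : (0 : ℝ) ≤ j := Nat.cast_nonneg j
              linarith)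
      · have h6 : ((j : ℝ) + 2) ≤ 2 ^ ((j : ℝ) + 2) := by
          have h7 : j + 2 ≤ 2 ^ (j + 2) := Nat.lt_two_pow_self.le
          have h8 : (2 : ℝ) ^ ((j : ℝ) + 2) = 2 ^ (j + 2 : ℕ) := by
            rw [← Real.rpow_natCast]
            push_cast
            rfl
          rw [h8]
          exact_mod_cast h7
        refine h6.trans ?_
        exact Real.rpow_le_rpow (by norm_num) h2H (by positivity)
    calc H j ^ ((j : ℝ) + 1) ≤ (H' (q j) ^ ((j : ℝ) + 2)) ^ ((j : ℝ) + 1) :=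
          Real.rpow_le_rpow (by linarith [hH2 j]) h5 (by positivity)
      _ = H' (q j) ^ (((j : ℝ) + 2) * ((j : ℝ) + 1)) := by
          rw [Real.rpow_mul (by linarith)]
      _ ≤ H' (q j) ^ ((q j : ℝ) + 1) := by
          refine Real.rpow_le_rpow_of_exponent_le (by linarith) ?_
          rw [hq]
          push_cast
          linarith
  obtain ⟨P⟩ := hPKG H hH2
  have hli3 := hBFF hBF M μ hli hμ H P
  have hHRP := (hrp_iff _).2 (hHRL M μ hli hμ H htH P)
  -- the data in the residue field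
  have hξO : (fun j => ξ' (q j) 0) ∈ P.O := P.mem_of_le 1 fun j => by
    rw [pow_one]
    exact (hξ' (q j) 0).trans (hHle j)
  have hBw : ∀ i k, P.Bd (fun j => w' (q j) i k) := fun i k =>
    P.bd_of_le 1 (fun j => by rw [pow_one]; exact ((hw' (q j) i).1 k).trans (hHle j))
  let β : Fin N → Fin M → P.kb := fun i k =>
    algebraMap P.kk P.kb ⟨P.evZ (fun j => w' (q j) i k), P.evZ_mem (hBw i k)⟩
  have hβ : ∀ i k, algebraMap P.kb P.F (β i k) = P.evZ (fun j => w' (q j) i k) := fun i k => rfl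
  have hsumO : ∀ i, (fun j => ∑ k, (w' (q j) i k : ℂ) * μ k) ∈ P.O ∧
      P.ev (fun j => ∑ k, (w' (q j) i k : ℂ) * μ k) =
        ∑ k, algebraMap P.kb P.F (β i k) * P.cst (μ k) := by
    intro i
    have h1 : (fun j => ∑ k, (w' (q j) i k : ℂ) * μ k) =
        ∑ k, ((fun j => (w' (q j) i k : ℂ)) * (fun _ => μ k)) := by
      funext j
      rw [Finset.sum_apply]
      rfl
    rw [h1]
    refine ⟨P.O.sum_mem fun k _ => P.O.mul_mem (hBw i k) (P.const_mem (μ k)), ?_⟩
    rw [P.ev_sum _ _ (fun k _ => P.O.mul_mem (hBw i k) (P.const_mem (μ k)))]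
    refine Finset.sum_congr rfl fun k _ => ?_
    rw [P.ev_mul (hBw i k) (P.const_mem (μ k)), hβ]
    rfl
  choose hwb Q hQ0 hQd hQc hQv using hw'
  have hval : ∀ i j, H j ^ ((j : ℝ) + 1) * ‖MvPolynomial.aeval
      ![ξ' (q j) 0, ∑ k, (w' (q j) i k : ℂ) * μ k] (Q (q j) i)‖ < 1 := by
    intro i j
    have h2 := hQv (q j) i
    rw [snoc_two] at h2
    exact lt_of_le_of_lt (mul_le_mul_of_nonneg_right (hpow j) (norm_nonneg _)) h2
  obtain ⟨t, ht⟩ : ∃ t, t = P.ev (fun j => ξ' (q j) 0) := ⟨_, rfl⟩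
  obtain ⟨W, hWd, hW⟩ : ∃ W : Fin s → Submodule P.kb (Fin M → P.kb),
      (∀ i, Module.finrank P.kb (W i) ≤ e) ∧ ∀ i, ∃ l, β i ∈ W l := by
    by_cases halg : IsAlgebraic P.kb t
    · refine ⟨fun _ => ⊥, fun i => by simp, fun i => ⟨⟨0, hs1⟩, ?_⟩⟩
      rw [Submodule.mem_bot]
      have hz : IsAlgebraic P.kb (P.ev (fun j => ∑ k, (w' (q j) i k : ℂ) * μ k)) := by
        refine alg_case P d (fun j => Q (q j) i) (fun j => hQ0 (q j) i) (fun j => hQd (q j) i)
          (fun j m => (hQc (q j) i m).trans (hHle j)) (fun j => ξ' (q j) 0) _ hξO (hsumO i).1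
          ⌈|A|⌉₊ ?_ (hval i) (by rw [← ht]; exact halg)
        intro j k hk
        have h2 := hg' (q j) (rk (Q (q j) i) d k) hk (rk_deg _ _ _) (fun m => by
          rw [rk_coeff]
          split_ifs
          · exact hQc (q j) i _
          · simp only [Int.cast_zero, abs_zero]
            linarith [hH2' (q j)])
        have h3 : (fun _ : Fin 1 => ξ' (q j) 0) = ξ' (q j) := by
          funext i
          rw [Subsingleton.elim i 0]
        rw [h3]
        refine h2.trans (mul_le_mul_of_nonneg_right ?_ (norm_nonneg _))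
        have h4 := hH2' (q j)
        calc H' (q j) ^ A ≤ H' (q j) ^ ((⌈|A|⌉₊ : ℕ) : ℝ) :=
              Real.rpow_le_rpow_of_exponent_le (by linarith)
                ((le_abs_self A).trans (Nat.le_ceil _))
          _ = H' (q j) ^ ⌈|A|⌉₊ := Real.rpow_natCast _ _
          _ ≤ H j ^ ⌈|A|⌉₊ := pow_le_pow_left₀ (by linarith) (hHle j) _
      have hint : IsIntegral P.kb (P.ev (fun j => ∑ k, (w' (q j) i k : ℂ) * μ k)) :=
        hz.isIntegral
      have hdeg : (minpoly P.kb (P.ev (fun j => ∑ k, (w' (q j) i k : ℂ) * μ k))).degree = 1 :=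
        IsAlgClosed.degree_eq_one_of_irreducible P.kb (minpoly.irreducible hint)
      obtain ⟨c, hc⟩ := minpoly.mem_range_of_degree_eq_one P.kb _ hdeg
      have hg := Fintype.linearIndependent_iff.1 hli3 (Fin.cons (-c) (β i)) (by
        rw [Fin.sum_univ_succ]
        simp only [Fin.cons_zero, Fin.cons_succ]
        simp only [Algebra.smul_def]
        rw [← (hsumO i).2, ← hc, map_neg]
        ring)
      funext k
      exact hg k.succ
    · obtain ⟨W, hW1, hW2⟩ := hs P.kb P.F t (fun k => P.cst (μ k)) halg hli3 hHRP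
      refine ⟨W, fun i => ?_, fun i => hW2 (β i) ?_⟩
      · rw [he]
        exact hW1 i
      · have hx : ∀ x : Fin 2, (fun j => (![ξ' (q j) 0, ∑ k, (w' (q j) i k : ℂ) * μ k] :
            Fin 2 → ℂ) x) ∈ P.O := by
          intro x
          fin_cases x
          · exact hξO
          · exact (hsumO i).1
        have hev : (fun x => P.ev (fun j => (![ξ' (q j) 0,
            ∑ k, (w' (q j) i k : ℂ) * μ k] : Fin 2 → ℂ) x)) =
            ![t, ∑ k, algebraMap P.kb P.F (β i k) * P.cst (μ k)] := by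
          funext x
          fin_cases x
          · exact ht.symm
          · exact (hsumO i).2
        obtain ⟨Q', h2, h3, h4⟩ := Pool.Agent.H29.BF.seq_rel hEVP P d (fun j => Q (q j) i)
          (fun j => hQ0 (q j) i) (fun j => hQd (q j) i)
          (fun j m => (hQc (q j) i m).trans (hHle j)) _ hx (hval i)
        rw [hev] at h4
        exact ⟨Q', h2, h3, h4⟩
  exact colour_core hMNR e M s N P (fun j i => w' (q j) i) hBw W hWd β hβ hW
    (fun j => hcov' (q j))

end Pool.Agent.H33.ET
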